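import Pool.Agent.X60.SDC2

set_option autoImplicit false
set_option linter.unusedSectionVars false

/-! Cubic graphs with a 2-factor with exactly two odd circuits: even subgraphs meeting both. -/

namespace Pool.Agent.X42.OddTwo

open Finset Pool.Agent.H126R2.CDC Pool.Agent.X60.SDC
open Pool.Agent.Helper879.ECD (F2)

variable {V E : Type} [Fintype V] [DecidableEq V] [Fintype E] [DecidableEq E]

/-- The components of `(V, F)` with an odd number of vertices are the one of `x` and the one of `y`,
and these are different (or there are none and `x`, `y` are in the same component): the unions `X`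
of components have odd order if and only if they contain exactly one of `x` and `y`. -/
def OddAt (G : MGraph V E) (F : Finset E) (x y : V) : Prop :=
  ∀ X : Finset V, Closed G F X → (Odd X.card ↔ ((x ∈ X ∧ y ∉ X) ∨ (x ∉ X ∧ y ∈ X)))

/-- `x` and `y` are in the same component of `(V, A)`. -/
def Linked (G : MGraph V E) (A : Finset E) (x y : V) : Prop :=
  ∀ X : Finset V, Closed G A X → (x ∈ X ↔ y ∈ X)

/-- the boundary of a vector of edges -/
def bd (v : E × Bool → V) (g : E → F2) (w : V) : F2 :=
  ∑ h : E × Bool, (if v h = w then g h.1 else 0)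

lemma bd_add (v : E × Bool → V) (f g : E → F2) (w : V) :
    bd v (fun e => f e + g e) w = bd v f w + bd v g w := by
  unfold bd
  rw [← Finset.sum_add_distrib]
  apply Finset.sum_congr rfl
  intro h _
  split_ifs <;> simp

lemma isFl_iff_bd (v : E × Bool → V) (g : E → F2) : IsFl v g ↔ ∀ w, bd v g w = 0 := Iff.rfl

lemma closed_of (G : MGraph V E) (v : E × Bool → V)
    (hv : ∀ e, G.ends e = s(v (e, false), v (e, true))) (K : Finset E) (c : V → F2)
    (hc : ∀ e ∈ K, c (v (e, false)) = c (v (e, true))) :
    Closed G K (univ.filter (fun w => c w = 1)) := by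
  intro e he
  have h := hc e he
  simp only [hv e, Sym2.mem_iff, mem_filter, mem_univ, true_and]
  by_cases h1 : c (v (e, false)) = 1
  · left
    rintro u (rfl | rfl)
    · exact h1
    · rw [← h]; exact h1
  · right
    rintro u (rfl | rfl)
    · exact h1
    · rw [← h]; exact h1

lemma f2_01 : ∀ a : F2, a = 0 ∨ a = 1 := by decide

lemma ind_sum (c : V → F2) (x : V) : ∑ w, c w * (if w = x then (1 : F2) else 0) = c x := by
  simp

/-- Two further even sets which cover the edges outside of `A`. -/
theorem three_sets (G : MGraph V E) (hdeg : ∀ w, G.deg univ w = 3) (F : Finset E)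
    (hF : ∀ w, G.deg F w = 2) (x y : V) (hxy : OddAt G F x y) (A : Finset E)
    (hA : Linked G A x y) :
    ∃ B C : Finset E, G.IsEven B ∧ G.IsEven C ∧ ∀ e, e ∈ A ∨ e ∈ B ∨ e ∈ C := by
  classical
  obtain ⟨v, hv⟩ := G.exists_halves
  -- the colouring of the 2-factor
  obtain ⟨p, hp1, hp2⟩ := exists_boundary v F
    (fun w => 1 + ((if w = x then (1 : F2) else 0) + (if w = y then 1 else 0))) (by
      intro c hc
      have h1 := hxy _ (closed_of G v hv F c hc)
      have h2 : ∑ w, c w * (1 + ((if w = x then (1 : F2) else 0) + (if w = y then 1 else 0))) =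
          ((univ.filter (fun w => c w = 1)).card : F2) + (c x + c y) := by
        simp only [mul_add, Finset.sum_add_distrib, ind_sum, mul_one]
        congr 1
        rw [Finset.card_filter, Nat.cast_sum]
        apply Finset.sum_congr rfl
        intro w _
        rcases f2_01 (c w) with h | h <;> simp [h]
      rw [h2]
      simp only [mem_filter, mem_univ, true_and] at h1
      by_cases hx : c x = 1
      · by_cases hy : c y = 1
        · have h3 : ¬ Odd (univ.filter (fun w => c w = 1)).card := by
            rw [h1]; tauto
          rw [ZMod.natCast_eq_zero_iff_even.2 (Nat.not_odd_iff_even.1 h3), hx, hy]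
          decide
        · have h3 : Odd (univ.filter (fun w => c w = 1)).card := by
            rw [h1]; tauto
          have hy0 : c y = 0 := (f2_01 (c y)).resolve_right hy
          rw [ZMod.natCast_eq_one_iff_odd.2 h3, hx, hy0]
          decide
      · have hx0 : c x = 0 := (f2_01 (c x)).resolve_right hx
        by_cases hy : c y = 1
        · have h3 : Odd (univ.filter (fun w => c w = 1)).card := by
            rw [h1]; tauto
          rw [ZMod.natCast_eq_one_iff_odd.2 h3, hx0, hy]
          decide
        · have hy0 : c y = 0 := (f2_01 (c y)).resolve_right hy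
          have h3 : ¬ Odd (univ.filter (fun w => c w = 1)).card := by
            rw [h1]; tauto
          rw [ZMod.natCast_eq_zero_iff_even.2 (Nat.not_odd_iff_even.1 h3), hx0, hy0]
          decide)
  -- the join inside `A`
  obtain ⟨q, hq1, hq2⟩ := exists_boundary v A
    (fun w => (if w = x then (1 : F2) else 0) + (if w = y then 1 else 0)) (by
      intro c hc
      have h1 := hA _ (closed_of G v hv A c hc)
      simp only [mem_filter, mem_univ, true_and] at h1
      simp only [mul_add, Finset.sum_add_distrib, ind_sum]
      rcases f2_01 (c x) with hx | hx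
      · rcases f2_01 (c y) with hy | hy
        · rw [hx, hy]; decide
        · rw [hx, hy] at h1
          exact absurd (h1.2 rfl) (by decide)
      · rw [h1.1 hx, hx]; decide)
  have hone : ∀ w, bd v (fun _ => (1 : F2)) w = 1 := by
    intro w
    have h := G.cast_deg v hv univ w
    rw [hdeg w] at h
    simp only [mem_univ, if_true] at h
    unfold bd
    rw [← h]
    decide
  have hFF : ∀ w, bd v (fun e => if e ∈ F then (1 : F2) else 0) w = 0 := by
    intro w
    have h := G.cast_deg v hv F w
    rw [hF w] at h
    unfold bd
    rw [← h]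
    decide
  have hp2' : ∀ w, bd v p w = 1 + ((if w = x then (1 : F2) else 0) + (if w = y then 1 else 0)) := hp2
  have hq2' : ∀ w, bd v q w = (if w = x then (1 : F2) else 0) + (if w = y then 1 else 0) := hq2
  have tw : ∀ a : F2, 1 + (1 + a + a) = 0 := by decide
  have hB : ∀ w, bd v (fun e => 1 + (p e + q e)) w = 0 := by
    intro w
    rw [bd_add v (fun _ => 1) (fun e => p e + q e), bd_add, hone, hp2', hq2']
    exact tw _
  have hC : ∀ w, bd v (fun e => (if e ∈ F then (1 : F2) else 0) + (1 + (p e + q e))) w = 0 := by
    intro w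
    rw [bd_add v (fun e => if e ∈ F then (1 : F2) else 0) (fun e => 1 + (p e + q e)), hFF, hB w,
      add_zero]
  have toSet : ∀ g : E → F2, (∀ w, bd v g w = 0) → G.IsEven (univ.filter (fun e => g e = 1)) := by
    intro g hg
    rw [G.isEven_iff v hv]
    have : (fun e => if e ∈ univ.filter (fun e => g e = 1) then (1 : F2) else 0) = g := by
      funext e
      simp only [mem_filter, mem_univ, true_and]
      rcases f2_01 (g e) with h | h <;> simp [h]
    rw [this]
    exact hg
  refine ⟨_, _, toSet _ hB, toSet _ hC, fun e => ?_⟩
  by_cases heA : e ∈ A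
  · exact Or.inl heA
  right
  simp only [mem_filter, mem_univ, true_and]
  rw [hq1 e heA, add_zero]
  by_cases heF : e ∈ F
  · rw [if_pos heF]
    rcases f2_01 (p e) with h | h
    · left; rw [h]; decide
    · right; rw [h]; decide
  · left
    rw [hp1 e heF]
    decide

/-- Circuit covers with the values 4 on `J` and 2 elsewhere. -/
theorem two_four_cover (G : MGraph V E) (hdeg : ∀ w, G.deg univ w = 3) (F : Finset E)
    (hF : ∀ w, G.deg F w = 2) (x y : V) (hxy : OddAt G F x y) (A : Finset E)
    (hA : G.IsEven A) (hAxy : Linked G A x y) (J : Finset E) (hJA : J ⊆ A)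
    (hJ : ∀ X Y : Finset V, Closed G J X → Closed G Aᶜ Y →
      Even ((X ∩ Y).filter (fun u => Odd (G.deg J u))).card) :
    ∃ D : Multiset (Finset E), (∀ C ∈ D, G.IsCircuit C) ∧
      ∀ e, D.countP (fun C => e ∈ C) = if e ∈ J then 4 else 2 := by
  obtain ⟨B, C, hB, hC, hcov⟩ := three_sets G hdeg F hF x y hxy A hAxy
  exact two_four G (fun w => (hdeg w).le) A B C hA hB hC hcov J hJA hJ

/-- A 5-cycle double cover containing the even set `A`, if `G - A` is connected. -/
theorem five_cdc (G : MGraph V E) (hdeg : ∀ w, G.deg univ w = 3) (F : Finset E)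
    (hF : ∀ w, G.deg F w = 2) (x y : V) (hxy : OddAt G F x y) (A : Finset E)
    (hA : G.IsEven A) (hAxy : Linked G A x y)
    (hcon : ∀ X : Finset V, Closed G Aᶜ X → X = ∅ ∨ X = univ) :
    ∃ D : Fin 5 → Finset E, (∀ i, G.IsEven (D i)) ∧ D 0 = A ∧
      ∀ e : E, (univ.filter fun i : Fin 5 => e ∈ D i).card = 2 := by
  classical
  obtain ⟨B, C, hB, hC, hcov⟩ := three_sets G hdeg F hF x y hxy A hAxy
  obtain ⟨v, hv⟩ := G.exists_halves
  let a : E → F2 := fun e => if e ∈ B then 1 else 0
  let b : E → F2 := fun e => if e ∈ C then 1 else 0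
  let k : E → F2 := fun e => if e ∈ A then 1 else 0
  have ha : ∀ w, bd v a w = 0 := (G.isEven_iff v hv B).1 hB
  have hb : ∀ w, bd v b w = 0 := (G.isEven_iff v hv C).1 hC
  have hk : ∀ w, bd v k w = 0 := (G.isEven_iff v hv A).1 hA
  obtain ⟨j, hj1, hj2⟩ := exists_boundary v Aᶜ (fun w => bd v (fun e => k e * (a e * b e)) w) (by
    intro c hc
    have h1 := hcon _ (closed_of G v hv Aᶜ c hc)
    have htot : ∀ g : E → F2, ∑ w, bd v g w = 0 := by
      intro g
      unfold bd
      rw [Finset.sum_comm]
      simp only [Finset.sum_ite_eq, mem_univ, if_true]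
      rw [Fintype.sum_prod_type]
      apply Finset.sum_eq_zero
      intro e _
      rw [Fintype.sum_bool]
      exact CharTwo.add_self_eq_zero _
    rcases h1 with h1 | h1
    · apply Finset.sum_eq_zero
      intro w _
      have h2 : c w ≠ 1 := by
        intro h
        have : w ∈ univ.filter (fun w => c w = 1) := by simp [h]
        rw [h1] at this
        exact absurd this (Finset.notMem_empty _)
      rw [(f2_01 (c w)).resolve_right h2, zero_mul]
    · have h2 : ∀ w, c w = 1 := by
        intro w
        have : w ∈ univ.filter (fun w => c w = 1) := by rw [h1]; exact mem_univ _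
        simpa using this
      simp only [h2, one_mul]
      exact htot _)
  have hj2' : ∀ w, bd v j w = bd v (fun e => k e * (a e * b e)) w := hj2
  let z : E → F2 := fun e => k e * (a e * b e) + j e
  have hz : ∀ w, bd v z w = 0 := by
    intro w
    show bd v (fun e => k e * (a e * b e) + j e) w = 0
    rw [bd_add, hj2']
    exact CharTwo.add_self_eq_zero _
  have toSet : ∀ g : E → F2, (∀ w, bd v g w = 0) → G.IsEven (univ.filter (fun e => g e = 1)) := by
    intro g hg
    rw [G.isEven_iff v hv]
    have : (fun e => if e ∈ univ.filter (fun e => g e = 1) then (1 : F2) else 0) = g := by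
      funext e
      simp only [mem_filter, mem_univ, true_and]
      rcases f2_01 (g e) with h | h <;> simp [h]
    rw [this]
    exact hg
  let L : Fin 5 → E → F2 := ![k, z, fun e => z e + b e, fun e => z e + a e,
    fun e => z e + (a e + (b e + k e))]
  have hL : ∀ i w, bd v (L i) w = 0 := by
    intro i w
    fin_cases i
    · exact hk w
    · exact hz w
    · show bd v (fun e => z e + b e) w = 0
      rw [bd_add, hz, hb, add_zero]
    · show bd v (fun e => z e + a e) w = 0
      rw [bd_add, hz, ha, add_zero]
    · show bd v (fun e => z e + (a e + (b e + k e))) w = 0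
      have e1 : bd v (fun e => z e + (a e + (b e + k e))) w =
          bd v z w + bd v (fun e => a e + (b e + k e)) w := bd_add v z _ w
      have e2 : bd v (fun e => a e + (b e + k e)) w = bd v a w + bd v (fun e => b e + k e) w :=
        bd_add v a _ w
      have e3 : bd v (fun e => b e + k e) w = bd v b w + bd v k w := bd_add v b k w
      rw [e1, e2, e3, hz w, ha w, hb w, hk w]
      decide
  refine ⟨fun i => univ.filter (fun e => L i e = 1), fun i => toSet _ (hL i), ?_, ?_⟩
  · ext e
    simp only [mem_filter, mem_univ, true_and]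
    show k e = 1 ↔ e ∈ A
    by_cases h : e ∈ A
    · simp [k, h]
    · simp [k, h]
  · intro e
    have h1 : (univ.filter fun i : Fin 5 => e ∈ univ.filter (fun e => L i e = 1)) =
        univ.filter fun i : Fin 5 => L i e = 1 := by
      ext i
      simp
    rw [h1]
    have hcase : ∀ (kk aa bb jj : F2), (kk = 1 → jj = 0) → (kk = 0 → ¬ (aa = 0 ∧ bb = 0)) →
        (univ.filter fun i : Fin 5 => (![kk, kk * (aa * bb) + jj, kk * (aa * bb) + jj + bb,
          kk * (aa * bb) + jj + aa, kk * (aa * bb) + jj + (aa + (bb + kk))] : Fin 5 → F2) i = 1).card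
            = 2 := by
      decide
    have h2 := hcase (k e) (a e) (b e) (j e) (by
      intro h
      apply hj1
      have : e ∈ A := by
        by_contra hh
        simp [k, hh] at h
      simp [this]) (by
      intro h
      have h3 : e ∉ A := by
        intro hh
        simp [k, hh] at h
      rcases hcov e with h4 | h4 | h4
      · exact absurd h4 h3
      · rintro ⟨h5, _⟩
        simp [a, h4] at h5
      · rintro ⟨_, h5⟩
        simp [b, h4] at h5)
    refine Eq.trans ?_ h2
    congr 1

/-- The vertices of a circuit are linked by it. -/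
theorem linked_of_circuit (G : MGraph V E) (C : Finset E) (hC : G.IsCircuit C) (x y : V)
    (hx : ∃ e ∈ C, x ∈ G.ends e) (hy : ∃ e ∈ C, y ∈ G.ends e) : Linked G C x y := by
  intro X hX
  have key : ∀ e ∈ C, ∀ f ∈ C, (∀ u ∈ G.ends e, u ∈ X) → ∀ u ∈ G.ends f, u ∈ X := by
    intro e he f hf h
    have hr := hC.2.2 e he f hf
    clear hf
    induction hr with
    | refl => exact h
    | tail _ hbc ih =>
      obtain ⟨hc, w, hw1, hw2⟩ := hbc
      rcases hX _ hc with h1 | h1
      · exact h1
      · exact absurd (ih w hw1) (h1 w hw2)
  obtain ⟨e, he, hxe⟩ := hx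
  obtain ⟨f, hf, hyf⟩ := hy
  constructor
  · intro hxX
    rcases hX e he with h | h
    · exact key e he f hf h y hyf
    · exact absurd hxX (h x hxe)
  · intro hyX
    rcases hX f hf with h | h
    · exact key f hf e he h x hxe
    · exact absurd hyX (h y hyf)

/-- The handshake lemma inside a union of components. -/
theorem even_of_closed (G : MGraph V E) (J : Finset E) (X : Finset V) (hX : Closed G J X) :
    Even (X.filter (fun u => Odd (G.deg J u))).card := by
  classical
  obtain ⟨v, hv⟩ := G.exists_halves
  let c : V → F2 := fun w => if w ∈ X then 1 else 0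
  have h1 := sum_card (fun w => G.deg J w) c
  have h2 : ∑ w, c w * ((G.deg J w : ℕ) : F2) = 0 := by
    simp only [G.cast_deg v hv J, Finset.mul_sum]
    rw [Finset.sum_comm]
    simp only [mul_ite, mul_zero, Finset.sum_ite_eq, mem_univ, if_true]
    rw [Fintype.sum_prod_type]
    apply Finset.sum_eq_zero
    intro e _
    rw [Fintype.sum_bool]
    by_cases he : e ∈ J
    · simp only [he, if_true, mul_one]
      have h3 : c (v (e, false)) = c (v (e, true)) := by
        rcases hX e he with h | h
        · have a1 := h (v (e, false)) (by rw [hv e]; simp)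
          have a2 := h (v (e, true)) (by rw [hv e]; simp)
          simp [c, a1, a2]
        · have a1 := h (v (e, false)) (by rw [hv e]; simp)
          have a2 := h (v (e, true)) (by rw [hv e]; simp)
          simp [c, a1, a2]
      rw [h3]
      exact CharTwo.add_self_eq_zero _
    · simp [he]
  have h4 : (univ.filter (fun w => c w = 1)) = X := by
    ext w
    simp only [mem_filter, mem_univ, true_and]
    by_cases hw : w ∈ X
    · simp [c, hw]
    · simp [c, hw]
  rw [h2, h4] at h1
  exact ZMod.natCast_eq_zero_iff_even.1 h1.symm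

/-- If `G - A` is connected then all `J ⊆ A` are allowed. -/
theorem two_four_connected (G : MGraph V E) (hdeg : ∀ w, G.deg univ w = 3) (F : Finset E)
    (hF : ∀ w, G.deg F w = 2) (x y : V) (hxy : OddAt G F x y) (A : Finset E)
    (hA : G.IsEven A) (hAxy : Linked G A x y)
    (hcon : ∀ X : Finset V, Closed G Aᶜ X → X = ∅ ∨ X = univ) (J : Finset E) (hJA : J ⊆ A) :
    ∃ D : Multiset (Finset E), (∀ C ∈ D, G.IsCircuit C) ∧
      ∀ e, D.countP (fun C => e ∈ C) = if e ∈ J then 4 else 2 := by
  classical
  apply two_four_cover G hdeg F hF x y hxy A hA hAxy J hJA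
  intro X Y hX hY
  rcases hcon Y hY with h | h
  · rw [h]; simp
  · rw [h, Finset.inter_univ]
    exact even_of_closed G J X hX

end Pool.Agent.X42.OddTwo
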